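import Pool.Agent.Helper41.LD5.Defs
import Pool.Agent.Helper5.LD2.PA

/-!
# Project LD5, block SQ1: one increasing convex function
-/

set_option autoImplicit false

namespace Pool.Agent.Helper5.LD5

open Set MeasureTheory Filter Topology
open Pool.Agent.Helper41.LD4
open Pool.Agent.Helper41.LD5
open Pool.Agent.Helper5.LD2 (bonnet_meas)

variable {N₀ m : ℕ} {w : ℝ} {f : ℝ → ℝ} {U V : ℝ → ℝ} {p q : ℝ}

theorem cv_cont (h : Cv U V p q) : ContinuousOn U (Icc p q) := fun x hx => (h.der x hx).continuousAt.continuousWithinAt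

theorem cv_strict (h : Cv U V p q) : StrictMonoOn U (Icc p q) := by
  refine strictMonoOn_of_deriv_pos (convex_Icc p q) (cv_cont h) fun x hx => ?_
  rw [interior_Icc] at hx
  have hx' : x ∈ Icc p q := ⟨hx.1.le, hx.2.le⟩
  rw [(h.der x hx').deriv]
  exact h.pos x hx'

theorem cv_image (h : Cv U V p q) (hpq : p ≤ q) : U '' Icc p q = Icc (U p) (U q) := by
  have hm := cv_strict h
  refine Subset.antisymm ?_ (intermediate_value_Icc hpq (cv_cont h))
  rintro _ ⟨x, hx, rfl⟩
  exact ⟨hm.monotoneOn ⟨le_rfl, hpq⟩ hx hx.1, hm.monotoneOn hx ⟨hpq, le_rfl⟩ hx.2⟩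

/-- change of variables -/
theorem cv_cov (h : Cv U V p q) (hpq : p ≤ q) (g : ℝ → ℝ) : ∫ x in p..q, g (U x) * V x = ∫ y in U p..U q, g y := by
  have hm := cv_strict h
  have hle : U p ≤ U q := hm.monotoneOn ⟨le_rfl, hpq⟩ ⟨hpq, le_rfl⟩ hpq
  have h1 := integral_image_eq_integral_abs_deriv_smul (measurableSet_Icc (a := p) (b := q))
    (fun x hx => (h.der x hx).hasDerivWithinAt) hm.injOn g
  rw [cv_image h hpq] at h1
  rw [intervalIntegral.integral_of_le hpq, intervalIntegral.integral_of_le hle, ← integral_Icc_eq_integral_Ioc,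
    ← integral_Icc_eq_integral_Ioc, h1]
  refine setIntegral_congr_fun measurableSet_Icc fun x hx => ?_
  show g (U x) * V x = |V x| • g (U x)
  rw [abs_of_pos (h.pos x hx), smul_eq_mul, mul_comm]

/-- SQ1a: second mean value theorem (Bonnet), substitution `y = U x` -/
theorem cv_int (hf : Fn N₀ m w f) (h : Cv U V p q) (hpq : p ≤ q) : |∫ x in p..q, f (U x)| ≤ w / V p := by
  obtain ⟨pr, hpr⟩ : ∃ pr : ℝ → ℝ, pr = fun x => max p (min q x) := ⟨_, rfl⟩
  have hprm : ∀ x, pr x ∈ Icc p q := fun x => by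
    rw [hpr]
    exact ⟨le_max_left _ _, max_le hpq (min_le_left _ _)⟩
  have hprmono : Monotone pr := fun x y hxy => by
    rw [hpr]
    exact max_le_max le_rfl (min_le_min le_rfl hxy)
  have hpreq : ∀ x ∈ Icc p q, pr x = x := fun x hx => by
    rw [hpr]
    dsimp only
    rw [min_eq_right hx.2, max_eq_right hx.1]
  have hVm : Measurable fun x => V (pr x) :=
    Monotone.measurable fun x y hxy => h.mono (hprm x) (hprm y) (hprmono hxy)
  have e : ∫ x in p..q, f (U x) = ∫ x in p..q, (1 / V x) * (f (U x) * V (pr x)) := by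
    refine intervalIntegral.integral_congr fun x hx => ?_
    rw [uIcc_of_le hpq] at hx
    rw [hpreq x hx]
    have := (h.pos x hx).ne'
    field_simp
  rw [e, div_eq_mul_one_div w]
  refine bonnet_meas (f := fun x => 1 / V x) (g := fun x => f (U x) * V (pr x)) (B := V q) hpq ?_ ?_ ?_ ?_ ?_
  · intro x hx y hy hxy
    exact one_div_le_one_div_of_le (h.pos x hx) (h.mono hx hy hxy)
  · exact (one_div_pos.2 (h.pos q ⟨hpq, le_rfl⟩)).le
  · exact (hf.meas.comp h.meas).mul hVm
  · intro x hx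
    rw [hpreq x hx, abs_mul, abs_of_pos (h.pos x hx)]
    calc |f (U x)| * V x ≤ 1 * V q :=
          mul_le_mul (hf.bdd _) (h.mono hx ⟨hpq, le_rfl⟩ hx.2) (h.pos x hx).le zero_le_one
      _ = V q := one_mul _
  · intro x hx
    have e2 : ∫ y in p..x, (fun x => f (U x) * V (pr x)) y = ∫ y in p..x, f (U y) * V y := by
      refine intervalIntegral.integral_congr fun y hy => ?_
      rw [uIcc_of_le hx.1] at hy
      rw [hpreq y ⟨hy.1, hy.2.trans hx.2⟩]
    rw [e2, cv_cov (h.sub le_rfl hx.2) hx.1 f]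
    exact hf.prim _ _

/-- SQ1b: from `Fn.piece` by the substitution `y = U x` -/
theorem cv_far (hf : Fn N₀ m w f) (h : Cv U V p q) (hpq : p ≤ q) {g : ℝ → ℝ} (hg : Measurable g) (hg1 : ∀ x, |g x| ≤ 1) {η : ℝ}
    (hη : ∀ s t, p ≤ s → s ≤ t → t ≤ q → |∫ x in s..t, g x| ≤ η) :
    |∫ x in p..q, f (U x) * g x| ≤ m * η * (U q - U p + 2) := by
  have hm := cv_strict h
  have hle : U p ≤ U q := hm.monotoneOn ⟨le_rfl, hpq⟩ ⟨hpq, le_rfl⟩ hpq
  have himg := cv_image h hpq
  have hVp : 0 < V p := h.pos p ⟨le_rfl, hpq⟩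
  -- the inverse function
  obtain ⟨pr, hpr⟩ : ∃ pr : ℝ → ℝ, pr = fun y => max (U p) (min (U q) y) := ⟨_, rfl⟩
  have hprm : ∀ y, pr y ∈ Icc (U p) (U q) := fun y => by
    rw [hpr]
    exact ⟨le_max_left _ _, max_le hle (min_le_left _ _)⟩
  have hprmono : Monotone pr := fun x y hxy => by
    rw [hpr]
    exact max_le_max le_rfl (min_le_min le_rfl hxy)
  have hpreq : ∀ y ∈ Icc (U p) (U q), pr y = y := fun y hy => by
    rw [hpr]
    dsimp only
    rw [min_eq_right hy.2, max_eq_right hy.1]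
  have hex : ∀ y, ∃ x ∈ Icc p q, U x = pr y := fun y => by
    have := hprm y
    rw [← himg] at this
    exact this
  choose W hWm hWU using hex
  have hWmono : Monotone W := fun x y hxy => by
    rw [← hm.le_iff_le (hWm x) (hWm y), hWU, hWU]
    exact hprmono hxy
  have hWeq : ∀ x ∈ Icc p q, W (U x) = x := fun x hx => by
    refine hm.injOn (hWm _) hx ?_
    rw [hWU]
    refine hpreq _ ?_
    rw [← himg]
    exact mem_image_of_mem U hx
  obtain ⟨φ, hφ⟩ : ∃ φ : ℝ → ℝ, φ = fun y => V p * (g (W y) / V (W y)) := ⟨_, rfl⟩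
  have hφU : ∀ x ∈ Icc p q, V x * φ (U x) = V p * g x := fun x hx => by
    rw [hφ]
    dsimp only
    rw [hWeq x hx]
    have := (h.pos x hx).ne'
    field_simp
  have hφm : Measurable φ := by
    rw [hφ]
    refine ((hg.comp hWmono.measurable).div ?_).const_mul _
    exact Monotone.measurable fun x y hxy => h.mono (hWm x) (hWm y) (hWmono hxy)
  have hφ1 : ∀ y, |φ y| ≤ 1 := fun y => by
    rw [hφ]
    dsimp only
    have hv := h.pos _ (hWm y)
    have h1 := h.mono ⟨le_rfl, hpq⟩ (hWm y) (hWm y).1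
    rw [abs_mul, abs_div, abs_of_pos hVp, abs_of_pos hv, ← mul_div_assoc, div_le_one hv]
    calc V p * |g (W y)| ≤ V p * 1 := mul_le_mul_of_nonneg_left (hg1 _) hVp.le
      _ ≤ V (W y) := by rw [mul_one]; exact h1
  obtain ⟨G, hG⟩ : ∃ G : ℝ → ℝ, G = (Icc (U p) (U q)).indicator φ := ⟨_, rfl⟩
  have hGm : Measurable G := by
    rw [hG]
    exact hφm.indicator measurableSet_Icc
  have hG1 : ∀ y, |G y| ≤ 1 := fun y => by
    rw [hG, indicator]
    split_ifs
    · exact hφ1 y
    · simp
  -- integrals of `G`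
  have key : ∀ s t : ℝ, s ≤ t → ∫ y in s..t, G y = V p * ∫ x in W s..W t, g x := by
    intro s t hst
    obtain ⟨A, hA⟩ : ∃ A : Set ℝ, A = Icc p q ∩ U ⁻¹' Ioc s t := ⟨_, rfl⟩
    have hAm : MeasurableSet A := by
      rw [hA]
      exact measurableSet_Icc.inter (h.meas measurableSet_Ioc)
    have hAs : A ⊆ Icc p q := by
      rw [hA]
      exact inter_subset_left
    have hAi : U '' A = Icc (U p) (U q) ∩ Ioc s t := by
      rw [hA, ← himg, ← image_inter_preimage]
    have h1 := integral_image_eq_integral_abs_deriv_smul hAm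
      (fun x hx => (h.der x (hAs hx)).hasDerivWithinAt) (hm.injOn.mono hAs) φ
    rw [hAi] at h1
    rw [intervalIntegral.integral_of_le hst, hG, setIntegral_indicator measurableSet_Icc, inter_comm, h1]
    have h2 : ∫ x in A, |V x| • φ (U x) = ∫ x in A, V p * g x := by
      refine setIntegral_congr_fun hAm fun x hx => ?_
      show |V x| • φ (U x) = V p * g x
      rw [abs_of_pos (h.pos x (hAs hx)), smul_eq_mul]
      exact hφU x (hAs hx)
    rw [h2, integral_const_mul]
    congr 1
    rw [intervalIntegral.integral_of_le (hWmono hst)]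
    refine setIntegral_congr_set ?_
    have h3 : ∀ x ∈ Ioo p q, (x ∈ A ↔ x ∈ Ioc (W s) (W t)) := by
      intro x hx
      have hx' : x ∈ Icc p q := ⟨hx.1.le, hx.2.le⟩
      have hlo : U p < U x := hm ⟨le_rfl, hpq⟩ hx' hx.1
      have hhi : U x < U q := hm hx' ⟨hpq, le_rfl⟩ hx.2
      have e1 : s < U x ↔ W s < x := by
        rw [← hm.lt_iff_lt (hWm s) hx', hWU, hpr]
        dsimp only
        rw [max_lt_iff, min_lt_iff]
        constructor
        · exact fun hs => ⟨hlo, Or.inr hs⟩
        · rintro ⟨-, hs | hs⟩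
          · exact absurd hs (not_lt.2 hhi.le)
          · exact hs
      have e2 : U x ≤ t ↔ x ≤ W t := by
        rw [← hm.le_iff_le hx' (hWm t), hWU, hpr]
        dsimp only
        rw [le_max_iff, le_min_iff]
        constructor
        · exact fun hs => Or.inr ⟨hhi.le, hs⟩
        · rintro (hs | hs)
          · exact absurd hs (not_le.2 hlo)
          · exact hs.2
      rw [hA]
      constructor
      · rintro ⟨-, h4, h5⟩
        exact ⟨e1.1 h4, e2.1 h5⟩
      · rintro ⟨h4, h5⟩
        exact ⟨hx', e1.2 h4, e2.2 h5⟩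
    have h4 : ∀ᵐ x : ℝ, x ≠ p ∧ x ≠ q := by
      rw [ae_iff]
      refine measure_mono_null (t := {p, q}) ?_ ((Set.toFinite {p, q}).measure_zero _)
      intro x hx
      by_contra h5
      simp only [mem_insert_iff, mem_singleton_iff, not_or] at h5
      exact hx h5
    filter_upwards [h4] with x hx
    refine propext ?_
    by_cases hx1 : x ∈ Icc p q
    · exact h3 x ⟨lt_of_le_of_ne hx1.1 (Ne.symm hx.1), lt_of_le_of_ne hx1.2 hx.2⟩
    · constructor
      · exact fun h5 => absurd (hAs h5) hx1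
      · exact fun h5 => absurd ⟨(hWm s).1.trans h5.1.le, h5.2.trans (hWm t).2⟩ hx1
  have hGη : ∀ s t : ℝ, |∫ y in s..t, G y| ≤ V p * η := by
    have h1 : ∀ s t : ℝ, s ≤ t → |∫ y in s..t, G y| ≤ V p * η := fun s t hst => by
      rw [key s t hst, abs_mul, abs_of_pos hVp]
      exact mul_le_mul_of_nonneg_left (hη _ _ (hWm s).1 (hWmono hst) (hWm t).2) hVp.le
    intro s t
    rcases le_total s t with hst | hst
    · exact h1 s t hst
    · rw [intervalIntegral.integral_symm, abs_neg]
      exact h1 t s hst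
  have h5 := hf.piece G (V p * η) hGm hG1 hGη (U p) (U q) hle
  have h6 : ∫ y in U p..U q, f y * G y = V p * ∫ x in p..q, f (U x) * g x := by
    rw [← cv_cov h hpq (fun y => f y * G y), ← intervalIntegral.integral_const_mul]
    refine intervalIntegral.integral_congr fun x hx => ?_
    rw [uIcc_of_le hpq] at hx
    have h7 : U x ∈ Icc (U p) (U q) := by
      rw [← himg]
      exact mem_image_of_mem U hx
    rw [hG, indicator_of_mem h7]
    have h8 := hφU x hx
    linear_combination f (U x) * h8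
  rw [h6, abs_mul, abs_of_pos hVp] at h5
  have h7 : V p * |∫ x in p..q, f (U x) * g x| ≤ V p * (m * η * (U q - U p + 2)) := by
    refine h5.trans (le_of_eq ?_)
    ring
  exact le_of_mul_le_mul_left h7 hVp

end Pool.Agent.Helper5.LD5
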